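import Pool.Agent.H918.G.Defs

/-! # Project PF (helper918): the discriminant of a plane model -/

set_option autoImplicit false

open Polynomial FF Pool.Agent.W603.LV
open scoped Polynomial.Bivariate

namespace Pool.Agent.H918.PF.H155

theorem sep_of_prime {P : ℂ[X][Y]} (hm : P.Monic) (hp : Prime P) :
    ∃ B₀ : Finset ℂ, ∀ z : ℂ, z ∉ B₀ → (P.map (evalRingHom z)).Separable := by
  classical
  have hirr : Irreducible (P.map (algebraMap ℂ[X] (FractionRing ℂ[X]))) :=
    (hm.irreducible_iff_irreducible_map_fraction_map (K := FractionRing ℂ[X])).1 hp.irreducible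
  have hsep : (P.map (algebraMap ℂ[X] (FractionRing ℂ[X]))).Separable := hirr.separable
  obtain ⟨a, b, hab⟩ := hsep
  obtain ⟨s, hs⟩ := IsLocalization.integerNormalization_map_to_map (nonZeroDivisors ℂ[X]) a
  obtain ⟨t, ht⟩ := IsLocalization.integerNormalization_map_to_map (nonZeroDivisors ℂ[X]) b
  set A : ℂ[X][Y] := IsLocalization.integerNormalization (nonZeroDivisors ℂ[X]) a with hA
  set B : ℂ[X][Y] := IsLocalization.integerNormalization (nonZeroDivisors ℂ[X]) b with hB
  have hs0 : (s : ℂ[X]) ≠ 0 := nonZeroDivisors.coe_ne_zero s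
  have ht0 : (t : ℂ[X]) ≠ 0 := nonZeroDivisors.coe_ne_zero t
  have key : C (t : ℂ[X]) * A * P + C (s : ℂ[X]) * B * derivative P = C ((s : ℂ[X]) * t) := by
    apply Polynomial.map_injective (algebraMap ℂ[X] (FractionRing ℂ[X]))
      (IsFractionRing.injective ℂ[X] (FractionRing ℂ[X]))
    rw [Polynomial.map_add, Polynomial.map_mul, Polynomial.map_mul, Polynomial.map_mul,
      Polynomial.map_mul, Polynomial.map_C, Polynomial.map_C, Polynomial.map_C, ← derivative_map, hs, ht]
    have e1 : ∀ (r : ℂ[X]) (q : (FractionRing ℂ[X])[X]),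
        r • q = C (algebraMap ℂ[X] (FractionRing ℂ[X]) r) * q := by
      intro r q
      rw [← Polynomial.smul_eq_C_mul, algebraMap_smul]
    rw [e1, e1, map_mul, C_mul]
    linear_combination (C (algebraMap ℂ[X] (FractionRing ℂ[X]) (t : ℂ[X])) *
      C (algebraMap ℂ[X] (FractionRing ℂ[X]) (s : ℂ[X]))) * hab
  refine ⟨((s : ℂ[X]) * t).roots.toFinset, fun z hz => ?_⟩
  have hz' : eval z ((s : ℂ[X]) * t) ≠ 0 := by
    intro h0
    apply hz
    rw [Multiset.mem_toFinset, mem_roots (mul_ne_zero hs0 ht0)]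
    exact h0
  have key2 := congrArg (Polynomial.map (evalRingHom z)) key
  rw [Polynomial.map_add, Polynomial.map_mul, Polynomial.map_mul (evalRingHom z) (p := _ * B),
    Polynomial.map_C, ← derivative_map] at key2
  refine ⟨C (eval z ((s : ℂ[X]) * t))⁻¹ * Polynomial.map (evalRingHom z) (C (t : ℂ[X]) * A),
    C (eval z ((s : ℂ[X]) * t))⁻¹ * Polynomial.map (evalRingHom z) (C (s : ℂ[X]) * B), ?_⟩
  have e2 : (C (eval z ((s : ℂ[X]) * t))⁻¹ : ℂ[X]) * C (eval z ((s : ℂ[X]) * t)) = 1 := by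
    rw [← C_mul, inv_mul_cancel₀ hz', C_1]
  have e3 : (C (evalRingHom z ((s : ℂ[X]) * t)) : ℂ[X]) = C (eval z ((s : ℂ[X]) * t)) := rfl
  rw [e3] at key2
  linear_combination (C (eval z ((s : ℂ[X]) * t))⁻¹ : ℂ[X]) * key2 + e2

end Pool.Agent.H918.PF.H155

namespace Pool.Agent.H918.PF

variable {L : Type} [Field L] [Algebra ℂ L] {c : Place ℂ L} {ev : ℂ[X][Y] →ₐ[ℂ] L} {P : ℂ[X][Y]}

/-- PF-SEP: the discriminant. -/
theorem exists_sepOff (hM : Model c ev P) : ∃ B₀ : Finset ℂ, SepOff P B₀ := by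
  have hprime : Prime P := by
    refine ⟨hM.monic.ne_zero, ?_, ?_⟩
    · intro hu
      have h1 := natDegree_eq_zero_of_isUnit hu
      have h2 := hM.pos
      omega
    · intro a b hab
      have h1 := (hM.ker _).2 hab
      rw [map_mul, mul_eq_zero] at h1
      rcases h1 with h | h
      · exact Or.inl ((hM.ker _).1 h)
      · exact Or.inr ((hM.ker _).1 h)
  exact H155.sep_of_prime hM.monic hprime

end Pool.Agent.H918.PF
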